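import Pool.Agent.Y277.UD.Basic
import Pool.Agent.Y277.UB.Pos

/-!
If `E` has a shrinking unconditional finite-dimensional decomposition, then `K(E)` is projective as a Banach left module over
itself.
-/

set_option autoImplicit false
set_option maxSynthPendingDepth 3

namespace Pool.Agent.Y277.UD

open ContinuousLinearMap Filter Topology Pool.Agent.Helper53 Pool.Agent.Y277.KE
open Pool.Agent.Y277.UB (avg_bound sign_sum_le)

universe u

section

variable {E : Type u} [NormedAddCommGroup E] [NormedSpace ℂ E] {ι : Type u}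

lemma compact_approx (Q : ι → E →L[ℂ] E)
    (h : ∀ x, HasSum (fun i => Q i x) x) (K : ℝ) (hK0 : 0 ≤ K)
    (hK : ∀ F, ‖PF Q F‖ ≤ K) (a : E →L[ℂ] E) (ha : IsCompactOperator a) (δ : ℝ) (hδ : 0 < δ) :
    ∃ F, ‖a - (PF Q F).comp a‖ ≤ δ := by
  classical
  have hc := ha.isCompact_closure_image_closedBall (1 : ℝ)
  have hη : 0 < δ / (K + 2) := by positivity
  obtain ⟨t, -, htf, htc⟩ := hc.finite_cover_balls hη
  have hev : ∀ᶠ F : Finset ι in atTop, ∀ y ∈ t, ‖y - PF Q F y‖ < δ / (K + 2) := by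
    rw [eventually_all_finite htf]
    intro y _
    have h5 : Tendsto (fun G : Finset ι => PF Q G y) atTop (𝓝 y) :=
      Tendsto.congr (fun G => (PF_apply Q G y).symm) (h y)
    have h6 : Tendsto (fun G : Finset ι => ‖y - PF Q G y‖) atTop (𝓝 ‖y - y‖) :=
      (tendsto_const_nhds.sub h5).norm
    rw [sub_self, norm_zero] at h6
    exact h6.eventually (gt_mem_nhds hη)
  obtain ⟨F, hF⟩ := hev.exists
  refine ⟨F, opNorm_le_of_unit_norm hδ.le (fun x hx => ?_)⟩
  have hmem : a x ∈ closure (a '' Metric.closedBall 0 1) :=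
    subset_closure ⟨x, by simp [hx], rfl⟩
  obtain ⟨y, hy, hxy⟩ := Set.mem_iUnion₂.1 (htc hmem)
  rw [mem_ball_iff_norm] at hxy
  have e1 : (a - (PF Q F).comp a) x
      = (a x - y) + (y - PF Q F y) - PF Q F (a x - y) := by
    rw [sub_apply, comp_apply, map_sub]
    abel
  rw [e1]
  have e2 := norm_sub_le ((a x - y) + (y - PF Q F y)) (PF Q F (a x - y))
  have e3 := norm_add_le (a x - y) (y - PF Q F y)
  have e4 : ‖PF Q F (a x - y)‖ ≤ K * (δ / (K + 2)) := by
    refine (le_opNorm _ _).trans ?_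
    gcongr
    exact hK _
  have e5 := hF y hy
  have e6 : K * (δ / (K + 2)) + δ / (K + 2) + δ / (K + 2) = δ := by
    field_simp
    ring
  linarith

lemma compact_of_finite (T : E →L[ℂ] E)
    (hT : FiniteDimensional ℂ (LinearMap.range (T : E →ₗ[ℂ] E))) : IsCompactOperator T := by
  have : ProperSpace (LinearMap.range (T : E →ₗ[ℂ] E)) := FiniteDimensional.proper ℂ _
  let T' : E →L[ℂ] LinearMap.range (T : E →ₗ[ℂ] E) := T.codRestrict _ (fun x => ⟨x, rfl⟩)
  exact (isCompactOperator_of_locallyCompactSpace_dom T').clm_comp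
    (LinearMap.range (T : E →ₗ[ℂ] E)).subtypeL

lemma tendsto_of_finite (Q : ι → E →L[ℂ] E)
    (hs : ∀ g : StrongDual ℂ E, Tendsto (fun F => g.comp (PF Q F)) atTop (𝓝 g))
    (b : E →L[ℂ] E) (hb : FiniteDimensional ℂ (LinearMap.range (b : E →ₗ[ℂ] E))) :
    Tendsto (fun F : Finset ι => b.comp (PF Q F)) atTop (𝓝 b) := by
  classical
  let R := LinearMap.range (b : E →ₗ[ℂ] E)
  let b' : E →L[ℂ] R := b.codRestrict _ (fun x => ⟨x, rfl⟩)
  let v := Module.finBasis ℂ R
  let g : Fin (Module.finrank ℂ R) → StrongDual ℂ E := fun k =>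
    (LinearMap.toContinuousLinearMap (v.coord k)).comp b'
  have hb1 : ∀ x, b x = ∑ k, g k x • (v k : E) := by
    intro x
    have h1 := v.sum_repr (b' x)
    have h2 := congrArg (fun z : R => (z : E)) h1
    simp only [Submodule.coe_sum, Submodule.coe_smul] at h2
    exact h2.symm
  have hb2 : b = ∑ k, (g k).smulRight (v k : E) := by
    ext x
    rw [hb1]
    simp [sum_apply]
  have hb3 : ∀ F, b.comp (PF Q F) = ∑ k, ((g k).comp (PF Q F)).smulRight (v k : E) := by
    intro F
    ext x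
    rw [comp_apply, hb1]
    simp [sum_apply]
  have ht' : Tendsto (fun F : Finset ι =>
      ∑ k, ((g k).comp (PF Q F)).smulRight (v k : E)) atTop
      (𝓝 (∑ k, (g k).smulRight (v k : E))) := by
    refine tendsto_finset_sum _ (fun k _ => ?_)
    exact (((inclK E).comp (rkL E (v k : E))).continuous.tendsto (g k)).comp (hs (g k))
  rw [← hb2] at ht'
  exact ht'.congr (fun F => (hb3 F).symm)

lemma tendsto_comp_PF (Q : ι → E →L[ℂ] E)
    (h0 : ∀ i, FiniteDimensional ℂ (LinearMap.range (Q i : E →ₗ[ℂ] E)))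
    (h : ∀ x, HasSum (fun i => Q i x) x) (K : ℝ) (hK0 : 0 ≤ K)
    (hK : ∀ F, ‖PF Q F‖ ≤ K)
    (hs : ∀ g : StrongDual ℂ E, Tendsto (fun F => g.comp (PF Q F)) atTop (𝓝 g))
    (a : E →L[ℂ] E) (ha : IsCompactOperator a) :
    Tendsto (fun F : Finset ι => a.comp (PF Q F)) atTop (𝓝 a) := by
  classical
  rw [tendsto_iff_norm_sub_tendsto_zero]
  rw [Metric.tendsto_nhds]
  intro δ hδ
  have hη : 0 < δ / (K + 3) := by positivity
  obtain ⟨F₀, hF₀⟩ := compact_approx Q h K hK0 hK a ha _ hη
  set b : E →L[ℂ] E := (PF Q F₀).comp a with hb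
  have ht : Tendsto (fun F => b.comp (PF Q F)) atTop (𝓝 b) := by
    refine tendsto_of_finite Q hs b ?_
    have hle : LinearMap.range (b : E →ₗ[ℂ] E) ≤
        F₀.sup (fun i : ι => LinearMap.range (Q i : E →ₗ[ℂ] E)) := by
      rintro _ ⟨x, rfl⟩
      show PF Q F₀ (a x) ∈ _
      rw [PF_apply]
      refine Submodule.sum_mem _ (fun i hi => ?_)
      exact (Finset.le_sup (f := fun i : ι => LinearMap.range (Q i : E →ₗ[ℂ] E)) hi) ⟨a x, rfl⟩
    have : FiniteDimensional ℂ
        (F₀.sup (fun i : ι => LinearMap.range (Q i : E →ₗ[ℂ] E)) : Submodule ℂ E) :=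
      Submodule.finiteDimensional_finset_sup _ _
    exact Submodule.finiteDimensional_of_le hle
  rw [tendsto_iff_norm_sub_tendsto_zero] at ht
  filter_upwards [ht.eventually (gt_mem_nhds hη)] with F hF
  rw [Real.dist_eq, sub_zero, abs_of_nonneg (norm_nonneg _)]
  have e1 : a.comp (PF Q F) - a = (a - b).comp (PF Q F) + (b.comp (PF Q F) - b)
      - (a - b) := by
    rw [sub_comp]
    abel
  rw [e1]
  have e2 := norm_sub_le ((a - b).comp (PF Q F) + (b.comp (PF Q F) - b)) (a - b)
  have e3 := norm_add_le ((a - b).comp (PF Q F)) (b.comp (PF Q F) - b)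
  have e4 : ‖(a - b).comp (PF Q F)‖ ≤ δ / (K + 3) * K := by
    refine (opNorm_comp_le _ _).trans ?_
    gcongr
    exact hK _
  have e6 : δ / (K + 3) * K + δ / (K + 3) + δ / (K + 3) < δ := by
    have : δ / (K + 3) * K + δ / (K + 3) + δ / (K + 3) + δ / (K + 3) = δ := by
      field_simp
      ring
    linarith
  linarith

/-- If the unconditional decomposition is shrinking, `K(E)` is left projective. -/
theorem leftProjective [CompleteSpace E] (Q : ι → E →L[ℂ] E)
    (h0 : ∀ i, FiniteDimensional ℂ (LinearMap.range (Q i : E →ₗ[ℂ] E)))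
    (h1 : ∀ i x, Q i (Q i x) = Q i x) (h : ∀ x, HasSum (fun i => Q i x) x)
    (hs : ∀ g : StrongDual ℂ E, Tendsto (fun F => g.comp (PF Q F)) atTop (𝓝 g)) :
    LeftProjective (leftRegular (compactOps E)) := by
  classical
  obtain ⟨K, hK0, hK⟩ := exists_bound Q h
  intro Y _ _ _ mY φ hφ ⟨s, hs'⟩
  let q : ι → compactOps E := fun i => ⟨Q i, compact_of_finite (Q i) (h0 i)⟩
  let B : compactOps E →L[ℂ] compactOps E →L[ℂ] Y :=
    ((ContinuousLinearMap.compL ℂ (compactOps E) Y Y).flip s).comp mY.act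
  have hB : ∀ x y, B x y = mY.act x (s y) := fun x y => rfl
  -- convergence of `a * q i`
  have hq : ∀ a : compactOps E, HasSum (fun i => a * q i) a := by
    intro a
    have h5 := tendsto_comp_PF Q h0 h K hK0 hK hs (a : E →L[ℂ] E) a.2
    rw [tendsto_iff_norm_sub_tendsto_zero] at h5
    show Tendsto (fun F => ∑ i ∈ F, a * q i) _ _
    rw [tendsto_iff_norm_sub_tendsto_zero]
    refine h5.congr (fun F => ?_)
    rw [← norm_coeK]
    congr 1
    rw [← Finset.mul_sum]
    show (a : E →L[ℂ] E).comp (PF Q F) - a = (a : E →L[ℂ] E) * ((∑ i ∈ F, q i : compactOps E) :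
      E →L[ℂ] E) - a
    rw [AddSubmonoidClass.coe_finsetSum]
    rfl
  have hsgn : ∀ (ε : ι → ℂ), (∀ i, ε i = 1 ∨ ε i = -1) → ∀ F : Finset ι,
      ‖∑ i ∈ F, ε i • q i‖ ≤ 2 * K := by
    intro ε hε F
    refine le_trans (le_of_eq ?_) (sign_bound Q K hK ε hε F)
    rw [← norm_coeK, AddSubmonoidClass.coe_finsetSum]
    rfl
  have hbd : ∀ (a : compactOps E) (F : Finset ι),
      ‖∑ i ∈ F, B (a * q i) (q i)‖ ≤ ‖B‖ * (‖a‖ * (2 * K)) * (2 * K) := by
    intro a F
    have := avg_bound B (fun i => a * q i) q (‖a‖ * (2 * K)) (2 * K) (by positivity) F 0 0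
      (fun ε hε => by
        rw [zero_add]
        have e1 : ∑ i ∈ F, ε i • (a * q i) = a * ∑ i ∈ F, ε i • q i := by
          rw [Finset.mul_sum]
          exact Finset.sum_congr rfl (fun i _ => (mul_smul_comm _ _ _).symm)
        rw [e1]
        refine (norm_mul_le _ _).trans ?_
        gcongr
        exact hsgn ε hε F)
      (fun ε hε => by
        rw [zero_add]
        exact hsgn ε hε F)
    simpa using this
  have hsum : ∀ a : compactOps E, Summable (fun i => B (a * q i) (q i)) := by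
    intro a
    rw [summable_iff_vanishing_norm]
    intro r hr
    have hM : 0 ≤ ‖B‖ * (2 * (2 * K)) := by positivity
    obtain ⟨F₀, hF₀⟩ := (summable_iff_vanishing_norm.1 (hq a).summable)
      (r / (‖B‖ * (2 * (2 * K)) + 1)) (by positivity)
    refine ⟨F₀, fun F hF => ?_⟩
    have := avg_bound B (fun i => a * q i) q (2 * (r / (‖B‖ * (2 * (2 * K)) + 1))) (2 * K)
      (by positivity) F 0 0
      (fun ε hε => by
        rw [zero_add]
        exact sign_sum_le _ F₀ _ hF₀ F hF ε hε)
      (fun ε hε => by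
        rw [zero_add]
        exact hsgn ε hε F)
    rw [map_zero, zero_add] at this
    refine lt_of_le_of_lt this ?_
    have e1 : ‖B‖ * (2 * (r / (‖B‖ * (2 * (2 * K)) + 1))) * (2 * K)
        = (‖B‖ * (2 * (2 * K))) * r / (‖B‖ * (2 * (2 * K)) + 1) := by ring
    rw [e1, div_lt_iff₀ (by positivity)]
    nlinarith
  let ψ : compactOps E →L[ℂ] Y := LinearMap.mkContinuous
    { toFun := fun a => ∑' i, B (a * q i) (q i)
      map_add' := fun a b => by
        rw [← (hsum a).tsum_add (hsum b)]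
        exact tsum_congr fun i => by rw [add_mul, map_add, add_apply]
      map_smul' := fun c a => by
        rw [RingHom.id_apply, ← (hsum a).tsum_const_smul]
        exact tsum_congr fun i => by rw [smul_mul_assoc, map_smul, smul_apply] }
    (‖B‖ * (2 * K) * (2 * K)) (fun a => by
      have h5 := (hsum a).hasSum.norm
      refine le_of_tendsto h5 (Eventually.of_forall fun F => ?_)
      refine (hbd a F).trans (le_of_eq ?_)
      ring)
  refine ⟨ψ, fun b a => ?_, fun a => ?_⟩
  · show ∑' i, B ((b * a) * q i) (q i) = mY.act b (∑' i, B (a * q i) (q i))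
    rw [(mY.act b).map_tsum (hsum a)]
    refine tsum_congr (fun i => ?_)
    rw [hB, hB, mul_assoc, mY.act_mul]
  · show φ (∑' i, B (a * q i) (q i)) = a
    rw [φ.map_tsum (hsum a)]
    refine Eq.trans (tsum_congr (fun i => ?_)) (hq a).tsum_eq
    rw [hB, hφ, hs']
    show (a * q i) * q i = a * q i
    rw [mul_assoc]
    congr 1
    refine Subtype.ext (ContinuousLinearMap.ext (fun x => ?_))
    exact h1 i x

end

end Pool.Agent.Y277.UD
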