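import Pool.Agent.Y277.UD.Basic
import Pool.Agent.Y277.UB.Copy
import Pool.Agent.Y277.UD.Pos

/-!
A space with a shrinking unconditional finite-dimensional decomposition contains no isomorphic
copy of `ℓ¹`.
-/

set_option autoImplicit false
set_option maxSynthPendingDepth 3

namespace Pool.Agent.Y277.UD

open ContinuousLinearMap Filter Topology Pool.Agent.Helper53 Pool.Agent.Y277.KE
open Pool.Agent.Y277.UB (exists_extension)

universe u

section

variable {E : Type u} [NormedAddCommGroup E] [NormedSpace ℂ E]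

variable {ι : Type u}

theorem not_contains [CompleteSpace E] (Q : ι → E →L[ℂ] E)
    (h0 : ∀ i, FiniteDimensional ℂ (LinearMap.range (Q i : E →ₗ[ℂ] E)))
    (h : ∀ x, HasSum (fun i => Q i x) x)
    (hs : ∀ g : StrongDual ℂ E, Tendsto (fun F => g.comp (PF Q F)) atTop (𝓝 g)) :
    ¬ ContainsCopy E (lp (fun _ : ℕ => ℂ) 1) := by
  classical
  rintro ⟨T, c, hc, hT⟩
  set x : ℕ → E := fun n => T (Ell1.e n) with hx
  have hxn : ∀ n, ‖x n‖ ≤ ‖T‖ := by
    intro n
    refine (T.le_opNorm _).trans ?_
    rw [Ell1.norm_e, mul_one]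
  set C : Set ι := ⋃ n, Function.support (fun i => Q i (x n)) with hC
  have hCc : C.Countable := Set.countable_iUnion (fun n => (h (x n)).summable.countable_support)
  have hCn : ∀ i, i ∉ C → ∀ n, Q i (x n) = 0 := by
    intro i hi n
    by_contra h0
    exact hi (Set.mem_iUnion.2 ⟨n, h0⟩)
  have : Countable C := hCc.to_subtype
  have hcomp : IsCompact (Set.pi Set.univ
      (fun i : C => closure (Q i '' Metric.closedBall (0 : E) ‖T‖))) :=
    isCompact_univ_pi (fun i =>
      (compact_of_finite (Q i) (h0 i)).isCompact_closure_image_closedBall ‖T‖)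
  obtain ⟨ξ, -, φ, hφ, hlim⟩ := hcomp.tendsto_subseq (x := fun n => fun i : C => Q i (x n))
    (fun n => by
      intro i _
      refine subset_closure ⟨x n, ?_, rfl⟩
      rw [mem_closedBall_zero_iff]
      exact hxn n)
  have hlim' : ∀ i : C, Tendsto (fun n => Q i (x (φ n))) atTop (𝓝 (ξ i)) := fun i =>
    (tendsto_pi_nhds.1 hlim) i
  set y : ℕ → E := fun n => x (φ (2 * n)) - x (φ (2 * n + 1)) with hy
  have hyn : ∀ n, ‖y n‖ ≤ 2 * ‖T‖ := by
    intro n
    refine (norm_sub_le _ _).trans ?_
    have := hxn (φ (2 * n))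
    have := hxn (φ (2 * n + 1))
    linarith
  have hy0 : ∀ i, Tendsto (fun n => Q i (y n)) atTop (𝓝 0) := by
    intro i
    by_cases hi : i ∈ C
    · have h1 : Tendsto (fun n : ℕ => 2 * n) atTop atTop :=
        tendsto_atTop_mono (fun n => by show n ≤ 2 * n; omega) tendsto_id
      have h2 : Tendsto (fun n : ℕ => 2 * n + 1) atTop atTop :=
        tendsto_atTop_mono (fun n => by show n ≤ 2 * n + 1; omega) tendsto_id
      have h3 := ((hlim' ⟨i, hi⟩).comp h1).sub ((hlim' ⟨i, hi⟩).comp h2)
      rw [sub_self] at h3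
      refine h3.congr (fun n => ?_)
      simp only [hy, map_sub, Function.comp]
    · have h1 : ∀ n, Q i (y n) = 0 := by
        intro n
        simp only [hy, map_sub, hCn i hi, sub_self]
      simp only [h1]
      exact tendsto_const_nhds
  -- the functional
  obtain ⟨s, hs1⟩ := exists_op_of_bounded
    (Function.extend φ (fun m => ((-1 : ℂ)) ^ m) 0) 1 (fun k => by
      by_cases hk : ∃ m, φ m = k
      · obtain ⟨m, rfl⟩ := hk
        rw [hφ.injective.extend_apply]
        simp
      · rw [Function.extend_apply' _ _ _ hk]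
        simp)
  obtain ⟨g, hg⟩ := exists_extension T c hc hT s
  have hgy : ∀ n, g (y n) = 2 := by
    intro n
    simp only [hy, hx, map_sub, hg, hs1, hφ.injective.extend_apply]
    rw [pow_succ, pow_mul]
    norm_num
  have h5 := hs g
  rw [Metric.tendsto_atTop] at h5
  obtain ⟨F, hF⟩ := h5 (1 / (2 * ‖T‖ + 1)) (by positivity)
  have h6 := hF F le_rfl
  rw [dist_eq_norm] at h6
  have h7 : Tendsto (fun n => g (PF Q F (y n))) atTop (𝓝 0) := by
    have h8 : Tendsto (fun n => ∑ i ∈ F, g (Q i (y n))) atTop (𝓝 (∑ i ∈ F, g (0 : E))) :=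
      tendsto_finset_sum _ (fun i _ => (g.continuous.tendsto 0).comp (hy0 i))
    simp only [map_zero, Finset.sum_const_zero] at h8
    refine h8.congr (fun n => ?_)
    rw [PF_apply, map_sum]
  have h9 : ∀ᶠ n in atTop, ‖g (PF Q F (y n))‖ < 1 := by
    have := h7.norm
    rw [norm_zero] at this
    exact this.eventually (gt_mem_nhds one_pos)
  obtain ⟨n, hn⟩ := h9.exists
  have h10 : ‖g (PF Q F (y n)) - g (y n)‖ ≤ 1 := by
    have e1 : g (PF Q F (y n)) - g (y n) = (g.comp (PF Q F) - g) (y n) := rfl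
    rw [e1]
    refine (le_opNorm _ _).trans ?_
    have e2 := hyn n
    calc ‖g.comp (PF Q F) - g‖ * ‖y n‖ ≤ (1 / (2 * ‖T‖ + 1)) * (2 * ‖T‖ + 1) := by
          gcongr
          linarith
      _ = 1 := by
          have : (0 : ℝ) < 2 * ‖T‖ + 1 := by positivity
          field_simp
  rw [hgy] at h10
  have h11 := norm_sub_norm_le (2 : ℂ) (g (PF Q F (y n)))
  rw [norm_sub_rev, Complex.norm_ofNat] at h11
  linarith

end

end Pool.Agent.Y277.UD
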