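import Pool.Agent.Y277.UD.Neg
import Pool.Agent.Y277.UD.Pos
import Pool.Agent.Y277.UD.Copy
import Pool.Agent.Y277.UB.Final

/-!
Left projectivity of `K(E)` for spaces with an unconditional finite-dimensional decomposition.
-/

set_option autoImplicit false
set_option maxSynthPendingDepth 3

namespace Pool.Agent.Y277.UD

open ContinuousLinearMap Filter Topology Pool.Agent.Helper53 Pool.Agent.Y277.KE
open Pool.Agent.Y277.UB (HasUnconditionalBasis dual_of_complemented)

universe u

/-- The operator `T` has finite rank. -/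
def HasFiniteRank {E : Type u} [NormedAddCommGroup E] [NormedSpace ℂ E] (T : E →L[ℂ] E) : Prop :=
  FiniteDimensional ℂ (LinearMap.range (T : E →ₗ[ℂ] E))

/-- `E` has an unconditional finite-dimensional Schauder decomposition, countable or uncountable:
there are bounded projections `Q i` of finite rank with `Q i Q j = 0` for `i ≠ j`, such that for
every `x` the sum of the `Q i x` converges unconditionally to `x`. -/
def HasUFDD (E : Type u) [NormedAddCommGroup E] [NormedSpace ℂ E] : Prop :=
  ∃ (ι : Type u) (Q : ι → E →L[ℂ] E),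
    (∀ i, HasFiniteRank (Q i)) ∧ (∀ i x, Q i (Q i x) = Q i x) ∧ (∀ i j, i ≠ j → ∀ x, Q i (Q j x) = 0) ∧
    ∀ x, HasSum (fun i => Q i x) x

section

variable {E : Type u} [NormedAddCommGroup E] [NormedSpace ℂ E]

theorem hasUFDD_of_basis (h : HasUnconditionalBasis E) : HasUFDD E := by
  obtain ⟨ι, e, f, h1, h2, h3⟩ := h
  refine ⟨ι, fun i => (f i).smulRight (e i), fun i => ?_, fun i x => ?_, fun i j hij x => ?_, h3⟩
  · have hle : LinearMap.range (((f i).smulRight (e i) : E →L[ℂ] E) : E →ₗ[ℂ] E) ≤
        Submodule.span ℂ {e i} := by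
      rintro _ ⟨x, rfl⟩
      exact Submodule.smul_mem _ _ (Submodule.mem_span_singleton_self _)
    exact Submodule.finiteDimensional_of_le hle
  · show f i (f i x • e i) • e i = f i x • e i
    rw [map_smul, h1, smul_eq_mul, mul_one]
  · show f i (f j x • e j) • e i = 0
    rw [map_smul, h2 i j hij, smul_zero, zero_smul]

variable [CompleteSpace E]

theorem iff_complemented (h : HasUFDD E) :
    LeftProjective (leftRegular (compactOps E)) ↔ ¬ ComplementedEll1 E := by
  obtain ⟨ι, Q, h0, h1, h2, h3⟩ := h
  constructor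
  · intro hp hc
    exact not_leftProjective (seqAP Q h0 h3) hc hp
  · intro hc
    refine leftProjective Q h0 h1 h3 (fun g => ?_)
    by_contra hg
    exact hc (complementedEll1 Q h1 h2 h3 g hg)

theorem iff_contains (h : HasUFDD E) :
    LeftProjective (leftRegular (compactOps E)) ↔ ¬ ContainsCopy E (lp (fun _ : ℕ => ℂ) 1) := by
  rw [iff_complemented h]
  obtain ⟨ι, Q, h0, h1, h2, h3⟩ := h
  constructor
  · intro hc
    refine not_contains Q h0 h3 (fun g => ?_)
    by_contra hg
    exact hc (complementedEll1 Q h1 h2 h3 g hg)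
  · rintro hc ⟨J, V, hVJ⟩
    refine hc ⟨J, 1 / (‖V‖ + 1), by positivity, fun x => ?_⟩
    rw [one_div, inv_mul_le_iff₀ (by positivity)]
    conv_lhs => rw [← hVJ x]
    refine (V.le_opNorm _).trans ?_
    gcongr
    linarith

theorem iff_dual (h : HasUFDD E) :
    LeftProjective (leftRegular (compactOps E)) ↔ ¬ DualContainsC0 E := by
  rw [iff_complemented h]
  exact not_congr ⟨dual_of_complemented, complementedEll1_of_dual⟩

end

end Pool.Agent.Y277.UD
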