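import Pool.Agent.Y277.KE.Dual
import Pool.Agent.Y277.KE.Inst

/-!
Unconditional finite-dimensional decompositions, possibly uncountable: finite partial sums, sign
changes, and the sequential approximation property.
-/

set_option autoImplicit false
set_option maxSynthPendingDepth 3

namespace Pool.Agent.Y277.UD

open ContinuousLinearMap Filter Topology Pool.Agent.Helper53 Pool.Agent.Y277.KE

universe u

section

variable {E : Type u} [NormedAddCommGroup E] [NormedSpace ℂ E] {ι : Type u}

/-- the finite partial sum operators -/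
noncomputable def PF (Q : ι → E →L[ℂ] E) (F : Finset ι) : E →L[ℂ] E := ∑ i ∈ F, Q i

lemma PF_apply (Q : ι → E →L[ℂ] E) (F : Finset ι) (x : E) : PF Q F x = ∑ i ∈ F, Q i x := by
  simp [PF, sum_apply]

lemma exists_bound [CompleteSpace E] (Q : ι → E →L[ℂ] E)
    (h : ∀ x, HasSum (fun i => Q i x) x) : ∃ K : ℝ, 0 ≤ K ∧ ∀ F, ‖PF Q F‖ ≤ K := by
  classical
  obtain ⟨K, hK⟩ : ∃ K, ∀ F, ‖PF Q F‖ ≤ K := by
    apply banach_steinhaus
    intro x
    obtain ⟨s, hs⟩ := (summable_iff_vanishing_norm.1 (h x).summable) 1 one_pos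
    refine ⟨∑ i ∈ s, ‖Q i x‖ + 1, fun F => ?_⟩
    rw [PF_apply, ← Finset.sum_inter_add_sum_sdiff F s]
    refine (norm_add_le _ _).trans (add_le_add ?_ (hs _ Finset.sdiff_disjoint).le)
    refine (norm_sum_le _ _).trans ?_
    exact Finset.sum_le_sum_of_subset_of_nonneg Finset.inter_subset_right
      (fun _ _ _ => norm_nonneg _)
  exact ⟨K, (norm_nonneg _).trans (hK ∅), hK⟩

/-- sign changes -/
lemma sign_bound (Q : ι → E →L[ℂ] E) (K : ℝ) (hK : ∀ F, ‖PF Q F‖ ≤ K)
    (ε : ι → ℂ) (hε : ∀ i, ε i = 1 ∨ ε i = -1) (F : Finset ι) :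
    ‖∑ i ∈ F, ε i • Q i‖ ≤ 2 * K := by
  classical
  have h1 : ∑ i ∈ F, ε i • Q i =
      PF Q (F.filter (fun i => ε i = 1)) - PF Q (F.filter (fun i => ¬ ε i = 1)) := by
    rw [← Finset.sum_filter_add_sum_filter_not F (fun i => ε i = 1), sub_eq_add_neg, PF, PF,
      ← Finset.sum_neg_distrib]
    congr 1
    · refine Finset.sum_congr rfl (fun i hi => ?_)
      rw [(Finset.mem_filter.1 hi).2, one_smul]
    · refine Finset.sum_congr rfl (fun i hi => ?_)
      rw [(hε i).resolve_left (Finset.mem_filter.1 hi).2, neg_smul, one_smul]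
  rw [h1]
  refine (norm_sub_le _ _).trans ?_
  have := hK (F.filter (fun i => ε i = 1))
  have := hK (F.filter (fun i => ¬ ε i = 1))
  linarith

lemma PF_mul (Q : ι → E →L[ℂ] E) (h1 : ∀ i x, Q i (Q i x) = Q i x)
    (h2 : ∀ i j, i ≠ j → ∀ x, Q i (Q j x) = 0) (F G : Finset ι) (hFG : G ⊆ F) (x : E) :
    PF Q F (PF Q G x) = PF Q G x := by
  classical
  rw [PF_apply, PF_apply]
  have h3 : ∀ i ∈ F, Q i (∑ j ∈ G, Q j x) = if i ∈ G then Q i x else 0 := by
    intro i _
    rw [map_sum]
    by_cases hi : i ∈ G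
    · rw [if_pos hi, Finset.sum_eq_single i]
      · rw [h1]
      · intro j _ hj
        rw [h2 i j hj.symm]
      · exact fun h => absurd hi h
    · rw [if_neg hi, Finset.sum_eq_zero]
      intro j hj
      rw [h2 i j (fun h => hi (h ▸ hj))]
  rw [Finset.sum_congr rfl h3, ← Finset.sum_filter]
  refine Finset.sum_congr ?_ (fun _ _ => rfl)
  ext i
  simp only [Finset.mem_filter, and_iff_right_iff_imp]
  exact fun h => hFG h

lemma PF_disj (Q : ι → E →L[ℂ] E)
    (h2 : ∀ i j, i ≠ j → ∀ x, Q i (Q j x) = 0) (F G : Finset ι) (hFG : Disjoint F G) (x : E) :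
    PF Q F (PF Q G x) = 0 := by
  classical
  rw [PF_apply, PF_apply]
  refine Finset.sum_eq_zero (fun i hi => ?_)
  rw [map_sum, Finset.sum_eq_zero]
  intro j hj
  rw [h2 i j (fun h => (Finset.disjoint_left.1 hFG) hi (h ▸ hj))]

/-- A space with an unconditional finite-dimensional decomposition has the sequential
approximation property. -/
theorem seqAP [CompleteSpace E] (Q : ι → E →L[ℂ] E)
    (h0 : ∀ i, FiniteDimensional ℂ (LinearMap.range (Q i : E →ₗ[ℂ] E)))
    (h : ∀ x, HasSum (fun i => Q i x) x) : SeqAP E := by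
  classical
  intro S hS
  set C : Set ι := ⋃ x ∈ S, Function.support (fun i => Q i x) with hC
  have hCc : C.Countable := hS.biUnion (fun x _ => (h x).summable.countable_support)
  obtain ⟨g, hg⟩ := Set.countable_iff_exists_injOn.1 hCc
  have hfin : ∀ n : ℕ, {i : C | g i < n}.Finite := by
    intro n
    refine Set.Finite.of_finite_image (f := fun i : C => g i) ((Set.finite_lt_nat n).subset ?_) ?_
    · rintro _ ⟨i, hi, rfl⟩
      exact hi
    · intro i _ j _ hij
      exact Subtype.ext (hg i.2 j.2 hij)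
  let G : ℕ → Finset C := fun n => (hfin n).toFinset
  have hG : Tendsto G atTop atTop := by
    apply tendsto_atTop_finset_of_monotone
    · intro m n hmn i hi
      simp only [G, Set.Finite.mem_toFinset, Set.mem_setOf_eq] at hi ⊢
      omega
    · intro i
      exact ⟨g i + 1, by simp [G]⟩
  let R : ℕ → E →L[ℂ] E := fun n => ∑ i ∈ G n, Q i
  have hR : ∀ x, Tendsto (fun n => R n x) atTop (𝓝 (∑' i : C, Q i x)) := by
    intro x
    have hs : Summable (fun i : C => Q i x) := (h x).summable.subtype C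
    have := hs.hasSum.comp hG
    refine this.congr (fun n => ?_)
    simp [R, sum_apply, Function.comp]
  let P : E →L[ℂ] E := continuousLinearMapOfTendsto R (tendsto_pi_nhds.2 hR)
  refine ⟨R, P, fun n => ?_, hR, fun x hx => ?_⟩
  · have hle : LinearMap.range (R n : E →ₗ[ℂ] E) ≤
        (G n).sup (fun i : C => LinearMap.range (Q i : E →ₗ[ℂ] E)) := by
      rintro _ ⟨x, rfl⟩
      show R n x ∈ _
      simp only [R, sum_apply]
      refine Submodule.sum_mem _ (fun i hi => ?_)
      exact (Finset.le_sup (f := fun i : C => LinearMap.range (Q i : E →ₗ[ℂ] E)) hi) ⟨x, rfl⟩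
    have : FiniteDimensional ℂ
        ((G n).sup (fun i : C => LinearMap.range (Q i : E →ₗ[ℂ] E)) : Submodule ℂ E) :=
      Submodule.finiteDimensional_finset_sup _ _
    exact Submodule.finiteDimensional_of_le hle
  · show ∑' i : C, Q i x = x
    rw [← (h x).tsum_eq]
    have : Function.support (fun i => Q i x) ⊆ C := by
      intro i hi
      exact Set.mem_biUnion hx hi
    have h5 := tsum_subtype_eq_of_support_subset this
    rw [(h x).tsum_eq] at h5 ⊢
    exact h5

end

end Pool.Agent.Y277.UD
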