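import Pool.Agent.Y277.UD.Basic
import Pool.Agent.Y277.UB.Neg

/-!
A space with an unconditional finite-dimensional decomposition which is not shrinking contains a complemented copy of `ℓ¹`.
-/

set_option autoImplicit false
set_option maxSynthPendingDepth 3

namespace Pool.Agent.Y277.UD

open ContinuousLinearMap Filter Topology Pool.Agent.Helper53 Pool.Agent.Y277.KE
open Pool.Agent.Y277.UB (sum_norm_le)

universe u

section

variable {E : Type u} [NormedAddCommGroup E] [NormedSpace ℂ E] {ι : Type u}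

lemma exists_block [DecidableEq ι] (Q : ι → E →L[ℂ] E) (h1 : ∀ i x, Q i (Q i x) = Q i x)
    (h2 : ∀ i j, i ≠ j → ∀ x, Q i (Q j x) = 0) (h : ∀ x, HasSum (fun i => Q i x) x)
    (K : ℝ) (hK0 : 0 ≤ K) (hK : ∀ F, ‖PF Q F‖ ≤ K) (g : StrongDual ℂ E) (δ : ℝ)
    (hg : ∀ F₀ : Finset ι, ∃ F ≥ F₀, δ ≤ dist (g.comp (PF Q F)) g) (hδ : 0 < δ)
    (F₀ : Finset ι) : ∃ p : Finset ι × E, Disjoint p.1 F₀ ∧ PF Q p.1 p.2 = p.2 ∧ ‖p.2‖ ≤ K ∧
      δ / 2 ≤ ‖g p.2‖ := by
  obtain ⟨F, hF, hd⟩ := hg F₀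
  rw [dist_eq_norm] at hd
  obtain ⟨x, hx1, hx2⟩ := ContinuousLinearMap.exists_lt_apply_of_lt_opNorm
    (g.comp (PF Q F) - g) (show δ / 2 < ‖g.comp (PF Q F) - g‖ by linarith)
  have ht : Tendsto (fun G : Finset ι => ‖g (PF Q F x) - g (PF Q G x)‖) atTop
      (𝓝 ‖g (PF Q F x) - g x‖) := by
    have h5 : Tendsto (fun G : Finset ι => PF Q G x) atTop (𝓝 x) := by
      have := h x
      refine Tendsto.congr (fun G => (PF_apply Q G x).symm) this
    exact ((tendsto_const_nhds).sub ((g.continuous.tendsto x).comp h5)).norm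
  have hx2' : δ / 2 < ‖g (PF Q F x) - g x‖ := hx2
  obtain ⟨G, hG1, hG2⟩ := ((ht.eventually (lt_mem_nhds hx2')).and
    (eventually_ge_atTop F)).exists
  have hFG : F ⊆ G := hG2
  refine ⟨(G \ F, PF Q (G \ F) x), ?_, ?_, ?_, ?_⟩
  · exact Finset.sdiff_disjoint.mono_right hF
  · exact PF_mul Q h1 h2 _ _ (Finset.Subset.refl _) x
  · refine ((PF Q (G \ F)).le_opNorm x).trans ?_
    calc ‖PF Q (G \ F)‖ * ‖x‖ ≤ K * 1 := by gcongr; exact hK _
      _ = K := mul_one K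
  · have h6 : PF Q (G \ F) x = PF Q G x - PF Q F x := by
      rw [PF_apply, PF_apply, PF_apply, ← Finset.sum_sdiff hFG, add_sub_cancel_right]
    show δ / 2 ≤ ‖g (PF Q (G \ F) x)‖
    rw [h6, map_sub, norm_sub_rev]
    exact hG1.le

theorem complementedEll1 [CompleteSpace E] (Q : ι → E →L[ℂ] E)
    (h1 : ∀ i x, Q i (Q i x) = Q i x) (h2 : ∀ i j, i ≠ j → ∀ x, Q i (Q j x) = 0)
    (h : ∀ x, HasSum (fun i => Q i x) x) (g : StrongDual ℂ E)
    (hg : ¬ Tendsto (fun F => g.comp (PF Q F)) atTop (𝓝 g)) : ComplementedEll1 E := by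
  classical
  obtain ⟨K, hK0, hK⟩ := exists_bound Q h
  rw [Metric.tendsto_atTop] at hg
  push Not at hg
  obtain ⟨δ, hδ, hg⟩ := hg
  obtain ⟨p, hp1, hp2⟩ := exists_seq_of_forall_finset_exists
    (fun p : Finset ι × E => PF Q p.1 p.2 = p.2 ∧ ‖p.2‖ ≤ K ∧ δ / 2 ≤ ‖g p.2‖)
    (fun p q => Disjoint q.1 p.1) (fun s _ => by
      obtain ⟨q, hq1, hq2⟩ := exists_block Q h1 h2 h K hK0 hK g δ hg hδ
        (s.biUnion (fun p => p.1))
      refine ⟨q, hq2, fun x hx => ?_⟩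
      exact (Finset.disjoint_biUnion_right _ _ _).1 hq1 x hx)
  have hdis : ∀ m n, m ≠ n → Disjoint (p m).1 (p n).1 := by
    intro m n hmn
    rcases lt_or_gt_of_ne hmn with h' | h'
    · exact (hp2 m n h').symm
    · exact hp2 n m h'
  have hgne : ∀ n, g (p n).2 ≠ 0 := by
    intro n h0
    have := (hp1 n).2.2
    rw [h0, norm_zero] at this
    linarith
  obtain ⟨J, hJ⟩ := exists_op_of_bounded (fun n => (g (p n).2)⁻¹ • (p n).2) ((2 / δ) * K)
    (fun n => by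
      rw [norm_smul, norm_inv]
      have h5 : ‖g (p n).2‖⁻¹ ≤ 2 / δ := by
        rw [inv_le_comm₀ (by linarith [(hp1 n).2.2]) (by positivity), inv_div]
        exact (hp1 n).2.2
      have := (hp1 n).2.1
      gcongr)
  have hsum : ∀ (y : E) (F : Finset ℕ), ∑ n ∈ F, ‖g (PF Q (p n).1 y)‖
      ≤ 4 * (‖g‖ * K) * ‖y‖ := by
    intro y F
    rw [mul_assoc]
    refine sum_norm_le F _ _ (fun S => ?_)
    have h5 : ∑ n ∈ S, g (PF Q (p n).1 y) = g (PF Q (S.biUnion (fun n => (p n).1)) y) := by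
      rw [PF_apply, Finset.sum_biUnion, map_sum]
      · exact Finset.sum_congr rfl (fun n _ => by rw [PF_apply])
      · intro m _ n _ hmn
        exact hdis m n hmn
    rw [h5]
    refine (g.le_opNorm _).trans ?_
    rw [mul_assoc]
    gcongr
    refine (le_opNorm _ _).trans ?_
    gcongr
    exact hK _
  have hsm : ∀ y : E, Summable fun n => ‖g (PF Q (p n).1 y)‖ := fun y =>
    summable_of_sum_le (fun _ => norm_nonneg _) (hsum y)
  let V : E →L[ℂ] lp (fun _ : ℕ => ℂ) 1 := LinearMap.mkContinuous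
    { toFun := fun y => Ell1.mk (fun n => g (PF Q (p n).1 y)) (hsm y)
      map_add' := fun x y => by
        ext i
        simp
      map_smul' := fun c x => by
        ext i
        simp }
    (4 * (‖g‖ * K)) (fun y => Ell1.norm_le_of_sum_le _ _ (fun F => hsum y F))
  have hQ : ∀ (y : E) (n : ℕ), V y n = g (PF Q (p n).1 y) := fun y n => rfl
  have hN : ‖ContinuousLinearMap.id ℂ (lp (fun _ : ℕ => ℂ) 1) - V.comp J‖ ≤ 0 := by
    refine opNorm_le_of_unit _ _ le_rfl (fun k => ?_)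
    have e1 : (ContinuousLinearMap.id ℂ (lp (fun _ : ℕ => ℂ) 1) - V.comp J) (Ell1.e k) = 0 := by
      rw [sub_apply, id_apply, comp_apply, hJ, sub_eq_zero]
      ext n
      rw [hQ, map_smul, map_smul, Ell1.e_apply]
      split_ifs with hnk
      · subst hnk
        rw [(hp1 n).1, smul_eq_mul, inv_mul_cancel₀ (hgne n)]
      · rw [← (hp1 k).1, PF_disj Q h2 _ _ (hdis n k hnk), map_zero, smul_zero]
    rw [e1, norm_zero]
  refine ⟨J, V, fun x => ?_⟩
  have h7 : ContinuousLinearMap.id ℂ (lp (fun _ : ℕ => ℂ) 1) - V.comp J = 0 :=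
    norm_le_zero_iff.1 hN
  have h8 := congrArg (fun T : lp (fun _ : ℕ => ℂ) 1 →L[ℂ] lp (fun _ : ℕ => ℂ) 1 => T x)
    (sub_eq_zero.1 h7)
  exact h8.symm

end

end Pool.Agent.Y277.UD
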